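import Pool.Agent.MP_fcb590_an.Mg.Q2_Upper
import Pool.Agent.MP_fcb590_an.Mg.Q2_Gluskin

namespace Pool.Agent.Results.MP_fcb590_an.DiamSmall

open Pool.Agent.MP_fcb590_an

theorem result (ε : ℝ) (hε : 0 < ε) : ∃ m₀ : ℕ, ∀ m : ℕ, m₀ ≤ m →
    ∃ (X₀ : Type) (_ : NormedAddCommGroup X₀) (_ : NormedSpace ℝ X₀) (_ : FiniteDimensional ℝ X₀)
      (Y₀ : Type) (_ : NormedAddCommGroup Y₀) (_ : NormedSpace ℝ Y₀) (_ : FiniteDimensional ℝ Y₀),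
      Module.finrank ℝ X₀ = m ∧ Module.finrank ℝ Y₀ = m ∧
      ∀ (X : Type) [NormedAddCommGroup X] [NormedSpace ℝ X] [FiniteDimensional ℝ X]
        (Y : Type) [NormedAddCommGroup Y] [NormedSpace ℝ Y] [FiniteDimensional ℝ Y],
        Module.finrank ℝ X = m → Module.finrank ℝ Y = m → numIndex X = 1 → numIndex Y = 1 →
        bmDist X Y ≤ ε * bmDist X₀ Y₀ := by
  obtain ⟨c, hc, hG⟩ := Q2.gluskin
  obtain ⟨m₀, hU⟩ := Q2.upper (η := ε * c) (mul_pos hε hc)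
  refine ⟨max m₀ 1, fun m hm => ?_⟩
  obtain ⟨X₀, i1, i2, i3, Y₀, j1, j2, j3, h1, h2, h3⟩ := hG m (le_trans (le_max_right _ _) hm)
  refine ⟨X₀, i1, i2, i3, Y₀, j1, j2, j3, h1, h2, fun X _ _ _ Y _ _ _ hX hY nX nY => ?_⟩
  refine (hU m (le_trans (le_max_left _ _) hm) X Y hX hY nX nY).trans ?_
  rw [mul_assoc]
  exact mul_le_mul_of_nonneg_left h3 hε.le

end Pool.Agent.Results.MP_fcb590_an.DiamSmall
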