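import Pool.Agent.MP_fcb590_an.Mg.Voronoi

namespace Pool.Agent.Results.MP_fcb590_an.EuclidSqrt

open Pool.Agent.MP_fcb590_an

theorem result (m : ℕ) (hm : 1 ≤ m) (X : Type) [NormedAddCommGroup X] [NormedSpace ℝ X]
    [FiniteDimensional ℝ X] (hdim : Module.finrank ℝ X = m) (hX : numIndex X = 1) :
    Real.sqrt ((m : ℝ) / 3) ≤ bmDist X (EuclideanSpace ℝ (Fin m)) := by
  obtain ⟨k, rfl⟩ : ∃ k, m = k + 1 := ⟨m - 1, by omega⟩
  have hpe : 0 < Real.pi * Real.exp 1 := by positivity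
  have hpe9 : Real.pi * Real.exp 1 ≤ 9 := by
    have h1 := Real.pi_lt_d2
    have h2 := Real.exp_one_lt_d9
    have h3 := Real.pi_pos
    have h4 := Real.exp_pos 1
    nlinarith
  have hne : {r : ℝ | ∃ T : X ≃L[ℝ] EuclideanSpace ℝ (Fin (k + 1)),
      r = ‖(T : X →L[ℝ] EuclideanSpace ℝ (Fin (k + 1)))‖ *
        ‖(T.symm : EuclideanSpace ℝ (Fin (k + 1)) →L[ℝ] X)‖}.Nonempty := by
    have e : X ≃L[ℝ] EuclideanSpace ℝ (Fin (k + 1)) :=
      (ContinuousLinearEquiv.ofFinrankEq (by rw [hdim, finrank_euclideanSpace, Fintype.card_fin]))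
    exact ⟨_, e, rfl⟩
  set C : ℝ := (4 * ((k + 1 : ℕ) : ℝ) / (Real.pi * Real.exp 1)) ^ (k + 1) / 2 with hC
  have key : ∀ D : ℝ,
      (2 : ℝ) ^ k ≤ (2 * Real.pi * Real.exp 1 * (D ^ 2 / 4) / (k + 1)) ^ (k + 1) →
      C ≤ D ^ (2 * (k + 1)) := by
    intro D h
    have hk : (0 : ℝ) < k + 1 := by positivity
    have e : D ^ (2 * (k + 1)) = (2 * Real.pi * Real.exp 1 * (D ^ 2 / 4) / (k + 1)) ^ (k + 1) *
        (2 * ((k : ℝ) + 1) / (Real.pi * Real.exp 1)) ^ (k + 1) := by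
      rw [← mul_pow, pow_mul]
      congr 1
      field_simp
      ring
    have e2 : C = 2 ^ k * (2 * ((k : ℝ) + 1) / (Real.pi * Real.exp 1)) ^ (k + 1) := by
      have : 4 * ((k + 1 : ℕ) : ℝ) / (Real.pi * Real.exp 1) =
          2 * (2 * ((k : ℝ) + 1) / (Real.pi * Real.exp 1)) := by push_cast; ring
      rw [hC, this, mul_pow, pow_succ (2 : ℝ) k]
      ring
    rw [e, e2]
    gcongr
  refine le_csInf hne ?_
  rintro r ⟨T, rfl⟩
  obtain ⟨h1, h2⟩ := sqrt_main hX T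
  replace h2 := key _ h2
  set D := ‖(T : X →L[ℝ] EuclideanSpace ℝ (Fin (k + 1)))‖ *
    ‖(T.symm : EuclideanSpace ℝ (Fin (k + 1)) →L[ℝ] X)‖ with hD
  rw [Real.sqrt_le_left (by linarith)]
  rcases le_or_gt (k + 1) 3 with hk | hk
  · have : ((k + 1 : ℕ) : ℝ) ≤ 3 := by exact_mod_cast hk
    nlinarith
  · refine le_of_pow_le_pow_left₀ (n := k + 1) (by omega) (by positivity) ?_
    rw [← pow_mul]
    refine le_trans ?_ h2
    have h3 : (4 / 3 : ℝ) * (((k + 1 : ℕ) : ℝ) / 3) ≤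
        4 * ((k + 1 : ℕ) : ℝ) / (Real.pi * Real.exp 1) := by
      rw [show (4 / 3 : ℝ) * (((k + 1 : ℕ) : ℝ) / 3) = 4 * ((k + 1 : ℕ) : ℝ) / 9 by ring]
      gcongr
    have h4 : (2 : ℝ) ≤ (4 / 3) ^ (k + 1) :=
      le_trans (by norm_num) (pow_le_pow_right₀ (by norm_num) hk.le)
    have h5 := pow_le_pow_left₀ (by positivity) h3 (k + 1)
    rw [mul_pow] at h5
    rw [hC, le_div_iff₀ (by norm_num)]
    refine le_trans ?_ h5
    rw [mul_comm]
    gcongr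

end Pool.Agent.Results.MP_fcb590_an.EuclidSqrt
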